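import Mathlib
import Pool.Agent.CanonDeg.Defs
import Pool.Agent.CanonDeg.Final

/-!
# Unbounded canonical degree of genus one curves on a smooth projective surface

`X` is the surface `{h(P) = t g(w)}` in `E × ℙ¹ × ℙ¹`, a blow-up of `E × ℙ¹`, where
`E = ℂ/Λ`, `h = (℘ - ℘(s₀))/(℘ - ℘(s₁))` and `g = w (w - 1)/(w³ + 1)`.  The curves are the images
of `z ↦ (N z + s₀, f(nz)/f(z))` with `f = (℘ - ℘(t₀))/(℘ - ℘(t₁))`, where `10 ∣ n` and
`N = 5 n (n + 1)`.  They have geometric genus `1` and canonical degree at least `n`.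
-/

namespace Pool.Agent.Results.MP_308c18_ag.CanonicalDegreeUnbounded

open Pool.Agent.CanonDeg

/-- The square lattice. -/
noncomputable def squareLattice : PeriodPair where
  ω₁ := 1
  ω₂ := Complex.I
  indep := by
    rw [LinearIndependent.pair_iff]
    intro s t h
    have h1 := congrArg Complex.re h
    have h2 := congrArg Complex.im h
    simp at h1 h2
    exact ⟨h1, h2⟩

/-- There is a smooth projective surface `X` over `ℂ` such that for all real constants `A, B`
there is a curve `C` on `X`, of geometric genus `g = 1`, whose canonical degree `k = K_X · C`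
satisfies `k > A (g - 1) + B`. -/
theorem result : ∃ (ι : Type) (_ : Fintype ι) (K : Type) (_ : Field K) (_ : Algebra ℂ K)
    (X : ProjVariety ι K), X.IsSmoothSurface ∧
    ∀ A B : ℝ, ∃ (L : Type) (_ : Field L) (_ : Algebra ℂ L) (C : ProjVariety ι L) (k : ℤ),
      IsCurveIn X C ∧ genus L = 1 ∧ IsCanonicalDegree X C k ∧
        (k : ℝ) > A * ((genus L : ℝ) - 1) + B := by
  refine ⟨Idx, inferInstance, KF squareLattice, inferInstance, inferInstance, surf squareLattice,
    surf_smooth, fun A B => ?_⟩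
  obtain ⟨m, hm⟩ := exists_nat_gt B
  have hn : ((10 * (m + 1) : ℕ) : ℤ) ≠ 0 := by
    have : 10 * (m + 1) ≠ 0 := by omega
    exact_mod_cast this
  have h10 : 10 ∣ 10 * (m + 1) := Dvd.intro _ rfl
  have hN : (5 * ((10 * (m + 1) : ℕ) : ℤ) * (((10 * (m + 1) : ℕ) : ℤ) + 1) : ℤ) ≠ 0 := by
    positivity
  obtain ⟨k, hk, hdeg⟩ := main_degree (Λ := squareLattice) (10 * (m + 1)) hn h10 _ hN rfl
  refine ⟨Ell squareLattice, inferInstance, inferInstance, _, k,
    curv_isCurve (10 * (m + 1)) hn h10 _ hN, Ell.genus_eq_one, hdeg, ?_⟩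
  rw [Ell.genus_eq_one]
  have h1 : ((10 * (m + 1) : ℕ) : ℝ) ≤ (k : ℝ) := by exact_mod_cast hk
  have h2 : (m : ℝ) < ((10 * (m + 1) : ℕ) : ℝ) := by
    push_cast
    have : (0 : ℝ) ≤ m := Nat.cast_nonneg m
    linarith
  push_cast at h1 h2 ⊢
  linarith

end Pool.Agent.Results.MP_308c18_ag.CanonicalDegreeUnbounded
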